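import Pool.Agent.N842.ST.Conv
import Pool.Agent.N842.ST.Gen
import Pool.Agent.N842.ST.Gauss

/-!
# The joint moments of the traces of the Frobenius automorphisms on the even cohomology of products of almost all superelliptic
curves whose coefficients arise from arbitrary integers by changing a few digits

The variety is the product `X = C_0 × ... × C_(N-1)` of `N` superelliptic curves `C_c : Y ^ l = f_c(X)`, `l` a prime number (for `l = 2`
hyperelliptic curves of genus `(D - 1) / 2`), where the degree `D` of the monic polynomials `f_c` is prime to `l`.  By the formula of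
Kuenneth the cohomology `H ^ i(X)` is the direct sum, over all sets `S` of curves, of `multiplicity N i S` copies of twists of the
tensor products of the `H ^ 1(C_c)`, `c ∈ S`.
-/

set_option autoImplicit false

namespace Pool.Agent.Results.MP_32ceeb_nt.EvenCohomologyOfProducts

open Finset

open Classical in
/-- The number of the solutions of `Y ^ l = X ^ D + m (D - 1) X ^ (D - 1) + ... + m 1 X + m 0` in the field with `p ^ k` elements,
`p` a prime number. -/
noncomputable def points (l D k p : ℕ) (m : Fin D → ℕ) : ℕ :=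
  if h : p.Prime then
    haveI : Fact p.Prime := ⟨h⟩
    Nat.card {P : GaloisField p k × GaloisField p k // P.2 ^ l = P.1 ^ D + ∑ i, (m i : GaloisField p k) * P.1 ^ (i : ℕ)}
  else 0

/-- `p ≠ l` and the polynomial `X ^ D + m (D - 1) X ^ (D - 1) + ... + m 0` is separable modulo `p`, so that the curve
`C : Y ^ l = X ^ D + m (D - 1) X ^ (D - 1) + ... + m 0` has good reduction at `p`. -/
def Smooth (l D p : ℕ) (m : Fin D → ℕ) : Prop :=
  p ≠ l ∧ (Polynomial.X ^ D + ∑ i, Polynomial.C (m i : ZMod p) * Polynomial.X ^ (i : ℕ)).Separable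

/-- The number `(#C(F_q) - (q + 1)) / q ^ (1 / 2)`, where `q = p ^ k` (there is one point at infinity), that is, `-1` times the trace
of the `k`-th power of the normalised Frobenius automorphism at `p` on `H ^ 1(C)`. -/
noncomputable def a (l D k p : ℕ) (m : Fin D → ℕ) : ℝ :=
  (((points l D k p m : ℝ) + 1) - ((p : ℝ) ^ k + 1)) / Real.sqrt p ^ k

/-- The number of the ways to choose one of the degrees `0` and `2` for every curve which is not in `S` in such a way that the sum
of these degrees and of the degrees `1` for the curves in `S` is `i`. -/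
def multiplicity (N i : ℕ) (S : Finset (Fin N)) : ℕ :=
  if S.card ≤ i ∧ Even (i - S.card) then (N - S.card).choose ((i - S.card) / 2) else 0

open Classical in
/-- The trace of the `k`-th power of the normalised Frobenius automorphism (that is, the Frobenius automorphism divided by
`p ^ (i / 2)`) at `p` on `H ^ i(X)`, where `X` is the product of the curves with the coefficients `m c`, `c < N`, computed by means of
the formula of Kuenneth; `0` if one of the curves does not have good reduction. -/
noncomputable def trace (l D N i k p : ℕ) (m : Fin N → Fin D → ℕ) : ℝ :=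
  if ∀ c, Smooth l D p (m c) then ∑ S : Finset (Fin N), (multiplicity N i S : ℝ) * ∏ c ∈ S, -a l D k p (m c) else 0

/-- `k (l - 1)` if the field with `p ^ k` elements contains the roots of unity of order `l`, and `0` otherwise. -/
def variance (l k p : ℕ) : ℕ := k * (if l ∣ p ^ k - 1 then l - 1 else 0)

open Classical in
/-- `l - 1` if `k` is even and `p ^ (k / 2) ≡ - 1 (mod l)`, and `0` otherwise. -/
noncomputable def shift (l k p : ℕ) : ℕ := if Even k ∧ l ∣ p ^ (k / 2) + 1 then l - 1 else 0

/-- The `q`-th moment of the random variable `∑ S, multiplicity N i S * ∏ c ∈ S, -x c`, where the `x c` are independent normal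
variables with the mean `shift l k p` and the variance `variance l k p`. -/
noncomputable def moment (l N i k p q : ℕ) : ℝ :=
  ∫ x : Fin N → ℝ, (∑ S : Finset (Fin N), (multiplicity N i S : ℝ) * ∏ c ∈ S, -x c) ^ q
    ∂(MeasureTheory.Measure.pi (fun _ => ProbabilityTheory.gaussianReal (shift l k p : ℝ) (variance l k p : NNReal)))

/-- The coefficients of the polynomial number `c`: the numbers `m (c D), ..., m (c D + D - 1)`. -/
def part {N D : ℕ} (m : Fin (N * D) → ℕ) (c : Fin N) : Fin D → ℕ := fun j => m (finProdFinEquiv (c, j))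

/-- For all weights `w` in `W` and all exponents `q e k` (`e < s`, `1 ≤ k ≤ D`; here the index is `k - 1`) of weight
`∑ k (q e k) ≤ D` for every `e`: the weighted mean of the products of the powers with the exponents `q e k` of the traces of
the `k`-th powers of the normalised Frobenius automorphisms at `p_(j + e)` on `H ^ i(X)` over the first `n` primes
`p_0 = 2, p_1, ..., p_(n-1)` differs from the weighted mean of the products of the numbers `moment l N i k p_(j + e) (q e k)` at most
by `(max 1 (∑ w j ^ 2)) ^ (1 / 2) n ^ δ`. -/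
def Moments (l D N i s : ℕ) (δ : ℝ) (W : Set (ℕ → ℝ)) (n : ℕ) (m : Fin (N * D) → ℕ) : Prop :=
  ∀ w ∈ W, ∀ q : Fin s → Fin D → ℕ, (∀ e, ∑ k : Fin D, (k + 1 : ℕ) * q e k ≤ D) →
    |∑ j ∈ range n, w j * ∏ e : Fin s, ∏ k : Fin D, trace l D N i (k + 1) (Nat.nth Nat.Prime (j + e)) (part m) ^ q e k -
      ∑ j ∈ range n, w j * ∏ e : Fin s, ∏ k : Fin D, moment l N i (k + 1) (Nat.nth Nat.Prime (j + e)) (q e k)| ≤
    Real.sqrt (max 1 (∑ j ∈ range n, w j ^ 2)) * (n : ℝ) ^ δ

/-- The digit number `i` (counted from the right, beginning with `0`) of `n` in base `b`. -/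
def digit (b i n : ℕ) : ℕ := n / b ^ i % b

/-- The number which arises from the number `N` with at most `K` digits in base `b`, if for every `i ∈ S`
the digit number `i` is replaced by `f i`. -/
def change (b K N : ℕ) (f : ℕ → ℕ) (S : Finset ℕ) : ℕ :=
  ∑ i ∈ range K, (if i ∈ S then f i else digit b i N) * b ^ i

open Classical in
/-- The number of the choices of `r j` of `K j` positions for all `j` for which the tuple of the numbers obtained by
changing the digits of the `N j` at the chosen positions (according to `f j`) does not have the property `E`. -/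
noncomputable def exceptions {d : ℕ} (b : ℕ) (K r N : Fin d → ℕ) (f : Fin d → ℕ → ℕ) (E : (Fin d → ℕ) → Prop) : ℕ :=
  ((Fintype.piFinset (fun j => powersetCard (r j) (range (K j)))).filter
    (fun S => ¬ E (fun j => change b (K j) (N j) (f j) (S j)))).card

lemma exc_eq {d : ℕ} (b : ℕ) (K r N : Fin d → ℕ) (f : Fin d → ℕ → ℕ) (E : (Fin d → ℕ) → Prop) :
    exceptions b K r N f E = Pool.Agent.Y57.FD.exceptions b K r N f E := rfl

lemma smooth_eq (l D p : ℕ) (m : Fin D → ℕ) : Smooth l D p m = Pool.Agent.N842.ST.Good l D p m := rfl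

lemma a_eq (l D k : ℕ) (hk : k ≠ 0) (p : ℕ) (hp : p.Prime) (m : Fin D → ℕ) (hm : Smooth l D p m) :
    a l D k p m = Pool.Agent.N842.ST.A l D k p m := by
  classical
  have : Fact p.Prime := ⟨hp⟩
  unfold a Pool.Agent.N842.ST.A
  have h3 : (Pool.Agent.N842.ST.fp p (fun i => ((m i : ℕ) : ZMod p))).Separable := hm.2
  rw [dif_pos ⟨hp, hm.1⟩, if_pos h3]
  unfold points
  rw [dif_pos hp, Pool.Agent.N842.ST.card_points l p k hk m]
  congr 1
  ring

lemma trace_eq (l D N i k : ℕ) (hk : k ≠ 0) (p : ℕ) (hp : p.Prime) (m : Fin N → Fin D → ℕ) :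
    trace l D N i k p m = Pool.Agent.N842.ST.tc l D N k p (fun S => (multiplicity N i S : ℝ)) m := by
  classical
  unfold trace Pool.Agent.N842.ST.tc
  by_cases h : ∀ c, Smooth l D p (m c)
  · rw [if_pos h]
    have h1 : ∏ c, Pool.Agent.N842.ST.ind l D p (m c) = 1 := by
      apply prod_eq_one
      intro c _
      unfold Pool.Agent.N842.ST.ind
      exact if_pos (h c)
    rw [h1, one_mul]
    refine sum_congr rfl fun S _ => ?_
    congr 1
    refine prod_congr rfl fun c _ => ?_
    rw [a_eq l D k hk p hp (m c) (h c)]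
  · rw [if_neg h]
    push Not at h
    obtain ⟨c, hc⟩ := h
    have h1 : ∏ c, Pool.Agent.N842.ST.ind l D p (m c) = 0 := by
      apply prod_eq_zero (mem_univ c)
      unfold Pool.Agent.N842.ST.ind
      exact if_neg hc
    rw [h1, zero_mul]

lemma moment_eq (l : ℕ) (hl : l.Prime) (N i k p q : ℕ) : moment l N i k p q =
    Pool.Agent.N842.ST.mk l N k p (fun S => (multiplicity N i S : ℝ)) q := by
  rw [Pool.Agent.N842.ST.mk_gauss l hl]
  rfl

/-- Let a prime number `l`, a degree `D` prime to `l`, integers `N, s ≥ 1`, an even number `i`, a base `b ≥ 2`,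
`δ > 0` and integers `A, B ≥ 0` be given.  There are `c > 0` and `y₀` such that for all integers `r j`, `K j`
(`j = 0, ..., N D - 1`), `y` with `2 r j ≤ K j` and `y ≥ y₀` the following holds.

Let `0 ≤ N' j < b ^ K j` be arbitrary integers, prescribe for every position `t` a digit `f j t` different from the digit of
`N' j` in base `b`, and let for every `n` an arbitrary set `W n` of at most `n ^ B` weights `w : ℕ → [-1, 1]` be given (for instance
the indicator functions of intervals, residue classes or other sets of primes, or the values of characters).  If one chooses `r j` of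
the `K j` positions and replaces the digits of `N' j` at these positions, then for all but at most a proportion `1 / y ^ A` of the
choices the product `X` of the `N` curves with the coefficients `m j` obtained has the following property: for all integers `n` with
`y ≤ n ≤ exp (c r j)` for all `j` and all weights `w ∈ W n`, all the joint moments of weight at most `D` of the traces of the powers
of the normalised Frobenius automorphisms on `H ^ i(X)` at `s` consecutive primes have, in the weighted mean over the first `n`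
primes, the values `moment`, up to an error `(max 1 (∑ w j ^ 2)) ^ (1 / 2) n ^ δ`. -/
theorem result (l D N i s b : ℕ) (hl : l.Prime) (hD : Nat.Coprime D l) (hN : 1 ≤ N) (_hi : Even i) (hs : 1 ≤ s) (hb : 2 ≤ b)
    (δ : ℝ) (hδ : 0 < δ) (A B : ℕ) :
    ∃ c : ℝ, 0 < c ∧ ∃ y₀ : ℕ, ∀ (K r : Fin (N * D) → ℕ) (y : ℕ), (∀ j, 2 * r j ≤ K j) → y₀ ≤ y →
    ∀ N' : Fin (N * D) → ℕ, (∀ j, N' j < b ^ K j) →
    ∀ f : Fin (N * D) → ℕ → ℕ, (∀ j t, f j t < b ∧ f j t ≠ digit b t (N' j)) →
    ∀ W : ℕ → Set (ℕ → ℝ), (∀ n, (W n).Finite ∧ (W n).ncard ≤ n ^ B) → (∀ n, ∀ w ∈ W n, ∀ j, |w j| ≤ 1) →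
      (exceptions b K r N' f
        (fun m => ∀ n : ℕ, y ≤ n → (∀ j, (n : ℝ) ≤ Real.exp (c * r j)) → Moments l D N i s δ (W n) n m) : ℝ) ≤
        1 / (y : ℝ) ^ A * ∏ j, ((K j).choose (r j) : ℝ) := by
  classical
  have hD0 : D ≠ 0 := by
    rintro rfl
    rw [Nat.coprime_zero_left] at hD
    exact hl.one_lt.ne' hD
  have hd : 1 ≤ N * D := Nat.one_le_iff_ne_zero.2 (Nat.mul_ne_zero (by omega) hD0)
  -- the admissible exponents
  obtain ⟨Q, hQ⟩ : ∃ Q : Finset (Fin D → ℕ), Q = (Fintype.piFinset (fun _ : Fin D => range (D + 1))).filter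
    (fun q => ∑ k : Fin D, (k + 1 : ℕ) * q k ≤ D) := ⟨_, rfl⟩
  have hQm : ∀ q : Fin D → ℕ, q ∈ Q ↔ ∑ k : Fin D, (k + 1 : ℕ) * q k ≤ D := by
    intro q
    rw [hQ, mem_filter]
    constructor
    · exact fun h => h.2
    · intro h
      refine ⟨?_, h⟩
      rw [Fintype.mem_piFinset]
      intro k
      rw [mem_range]
      have h2 : (k + 1 : ℕ) * q k ≤ ∑ k : Fin D, (k + 1 : ℕ) * q k :=
        single_le_sum (f := fun k : Fin D => (k + 1 : ℕ) * q k) (fun k _ => Nat.zero_le _) (mem_univ k)
      have h3 : q k ≤ (k + 1 : ℕ) * q k := Nat.le_mul_of_pos_left _ (by omega)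
      omega
  obtain ⟨β, hβ⟩ : ∃ β : Finset (Fin N) → ℝ, β = fun S => (multiplicity N i S : ℝ) := ⟨_, rfl⟩
  obtain ⟨c, hc, y₀, h⟩ := Pool.Agent.N842.ST.gen b (N * D) s hb hd hs δ hδ A B Q
    (fun q p m => Pool.Agent.N842.ST.TP l D N p finProdFinEquiv β q m)
    (fun q p => ∏ k : Fin D, Pool.Agent.N842.ST.mk l N (k + 1) p β (q k))
    (fun q _ p _ m => Pool.Agent.N842.ST.TP_mod l D N p finProdFinEquiv β q m)
    (fun q _ => by
      obtain ⟨C₁, hC₁⟩ := Pool.Agent.N842.ST.TP_bd l hl D hD N finProdFinEquiv β q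
      obtain ⟨C₂, hC₂⟩ := Pool.Agent.N842.ST.mk_bd l hl D N β q
      exact ⟨max C₁ C₂, fun p _ => ⟨fun m => (hC₁ p m).trans (le_max_left _ _), (hC₂ p).trans (le_max_right _ _)⟩⟩)
    (fun q hq => Pool.Agent.N842.ST.local_mean5 l hl D hD N finProdFinEquiv β q ((hQm q).1 hq))
  refine ⟨c, hc, y₀, fun K r y hrK hy N' hN' f hf W hW hW1 => ?_⟩
  rw [exc_eq]
  refine h K r y hrK hy N' hN' f hf W hW hW1 _ fun m hm n hyn hnr w hw q hq => ?_
  have h1 := hm n hyn hnr w hw q (fun e => (hQm _).2 (hq e))
  have h2 : ∀ j : ℕ, ∏ e : Fin s, ∏ k : Fin D, trace l D N i (k + 1) (Nat.nth Nat.Prime (j + e)) (part m) ^ q e k =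
      ∏ e : Fin s, Pool.Agent.N842.ST.TP l D N (Pool.Agent.TH894.NF.pr (j + e)) finProdFinEquiv β (q e) m := by
    intro j
    refine prod_congr rfl fun e _ => ?_
    unfold Pool.Agent.N842.ST.TP
    refine prod_congr rfl fun k _ => ?_
    rw [trace_eq l D N i (k + 1) (by omega) _ (Nat.prime_nth_prime _), hβ]
    rfl
  have h3 : ∀ j : ℕ, ∏ e : Fin s, ∏ k : Fin D, moment l N i (k + 1) (Nat.nth Nat.Prime (j + e)) (q e k) =
      ∏ e : Fin s, ∏ k : Fin D, Pool.Agent.N842.ST.mk l N (k + 1) (Pool.Agent.TH894.NF.pr (j + e)) β (q e k) := by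
    intro j
    refine prod_congr rfl fun e _ => ?_
    refine prod_congr rfl fun k _ => ?_
    rw [moment_eq l hl, hβ]
    rfl
  simp only [h2, h3]
  exact h1

end Pool.Agent.Results.MP_32ceeb_nt.EvenCohomologyOfProducts
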