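import Pool.Agent.N842.HS.Law

/-!
# The Sato-Tate law, up to an error which is very small if the degree is large, for almost all hypersurfaces of even dimension

The hypersurface `X` of degree `d` in the projective space of dimension `n + 1` is the projective closure of
`∑ x_i ^ d + ∑ m_α x ^ α = 0`, where `x = (x_0, ..., x_n)` and `α` runs through the exponents of all monomials of degree less than `d`.
The Sato-Tate group of a general hypersurface of even dimension is (on the primitive part of the cohomology) the orthogonal group, and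
up to errors which are very small the traces of the powers of a random matrix in this group of large rank are independent normal
variables, the trace of the `k`-th power having variance `k` and mean `1` for even `k` and `0` for odd `k`.
-/

set_option autoImplicit false

namespace Pool.Agent.Results.MP_32ceeb_nt.EvenHypersurfaces

open Finset

/-- The exponents of the monomials of degree less than `d` in the variables `x_0, ..., x_n`. -/
abbrev Exponent (n d : ℕ) : Type := {α : Fin (n + 1) → Fin d // ∑ i, (α i : ℕ) < d}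

/-- The polynomial `∑ x_i ^ d + ∑ m_k x ^ (e k)` over the ring `R`, where `e` is an enumeration of the exponents. -/
noncomputable def poly (R : Type) [CommRing R] {n d D : ℕ} (e : Fin D ≃ Exponent n d) (m : Fin D → ℕ) : MvPolynomial (Fin (n + 1)) R :=
  ∑ i, MvPolynomial.X i ^ d + ∑ k, MvPolynomial.C (m k : R) * ∏ i, MvPolynomial.X i ^ ((e k).1 i : ℕ)

/-- The number of the points of `X` over the field with `q = p ^ k` elements: the number of the zeros of the polynomial (these are the
points outside the hyperplane at infinity), and the number of the nonzero solutions of `∑ x_i ^ d = 0` divided by `q - 1` (these are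
the points at infinity). -/
noncomputable def points {n d D : ℕ} (e : Fin D ≃ Exponent n d) (k p : ℕ) [Fact p.Prime] (m : Fin D → ℕ) : ℝ :=
  (Nat.card {x : Fin (n + 1) → GaloisField p k // MvPolynomial.eval x (poly (GaloisField p k) e m) = 0} : ℝ) +
    ((Nat.card {x : Fin (n + 1) → GaloisField p k // ∑ i, x i ^ d = 0} : ℝ) - 1) / ((p : ℝ) ^ k - 1)

/-- The trace of the `k`-th power of the normalised Frobenius automorphism at `p` (that is, the Frobenius automorphism divided by
`p ^ (n / 2)`) on the primitive part of the cohomology `H ^ n(X)`: the number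
`(-1) ^ n (#X(F_q) - (1 + q + ... + q ^ n)) / q ^ (n / 2)`, where `q = p ^ k`. -/
noncomputable def trace {n d D : ℕ} (e : Fin D ≃ Exponent n d) (k p : ℕ) [Fact p.Prime] (m : Fin D → ℕ) : ℝ :=
  (-1) ^ n * ((points e k p m - ∑ i ∈ range (n + 1), ((p : ℝ) ^ k) ^ i) / (Real.sqrt p ^ k) ^ n)

/-- `p` does not divide `d`, and the polynomial and its partial derivatives do not have a common zero over the algebraic closure of
the field with `p` elements, so that `X` has good reduction at `p`. -/
def Smooth {n d D : ℕ} (e : Fin D ≃ Exponent n d) (p : ℕ) [Fact p.Prime] (m : Fin D → ℕ) : Prop :=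
  ¬ p ∣ d ∧ ¬ ∃ x : Fin (n + 1) → AlgebraicClosure (ZMod p), MvPolynomial.eval x (poly (AlgebraicClosure (ZMod p)) e m) = 0 ∧
    ∀ i, MvPolynomial.eval x (MvPolynomial.pderiv i (poly (AlgebraicClosure (ZMod p)) e m)) = 0

open Classical in
/-- The test function `cos (∑ τ_k t_k(p) + v)`, where `t_k(p)` is the trace with the number `k` (`1 ≤ k ≤ K`; the index of `τ` is
`k - 1`), if `X` has good reduction at the prime number `p`, and `0` otherwise. -/
noncomputable def test {n d D K : ℕ} (e : Fin D ≃ Exponent n d) (θ : (Fin K → ℝ) × ℝ) (p : ℕ) (m : Fin D → ℕ) : ℝ :=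
  if h : p.Prime then
    haveI : Fact p.Prime := ⟨h⟩
    if Smooth e p m then Real.cos (∑ k : Fin K, θ.1 k * trace e (k + 1) p m + θ.2) else 0
  else 0

/-- The number `∑ k τ_k ^ 2`, the variance of `∑ τ_k Z_k` for independent normal variables `Z_k` with the variances `k`. -/
def variance {K : ℕ} (τ : Fin K → ℝ) : ℝ := ∑ k : Fin K, ((k + 1 : ℕ) : ℝ) * τ k ^ 2

open Classical in
/-- The mean of `cos (∑ τ_k Z_k + v)` for independent normal variables `Z_k` with the variances `k` and the means `1` for
even `k` and `0` for odd `k`. -/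
noncomputable def mainTerm {K : ℕ} (θ : (Fin K → ℝ) × ℝ) : ℝ :=
  Real.cos (θ.2 + ∑ k : Fin K, θ.1 k * (if Even ((k : ℕ) + 1) then 1 else 0)) * Real.exp (-variance θ.1 / 2)

/-- The number `2 (variance / 2) ^ h / h!`. -/
noncomputable def err {K : ℕ} (h : ℕ) (τ : Fin K → ℝ) : ℝ := 2 * (variance τ / 2) ^ h / Nat.factorial h

/-- For all weights `w` in `W` and all `θ_0, ..., θ_(s-1)` in `Q`: the weighted sum of the products of the test functions with the
parameters `θ_i` at `p_(j + i)` over the first `x` primes `p_0 = 2, p_1, ..., p_(x-1)` differs from the sum of the weights times the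
product of the main terms at most by `(max 1 (∑ w j ^ 2)) ^ (1 / 2) x ^ δ` plus `∑ err` times the sum of the `|w j|`. -/
def Law {n d D K : ℕ} (e : Fin D ≃ Exponent n d) (h s : ℕ) (δ : ℝ) (Q : Finset ((Fin K → ℝ) × ℝ)) (W : Set (ℕ → ℝ)) (x : ℕ)
    (m : Fin D → ℕ) : Prop :=
  ∀ w ∈ W, ∀ θ : Fin s → (Fin K → ℝ) × ℝ, (∀ i, θ i ∈ Q) →
    |∑ j ∈ range x, w j * (∏ i : Fin s, test e (θ i) (Nat.nth Nat.Prime (j + i)) m - ∏ i : Fin s, mainTerm (θ i))| ≤
      Real.sqrt (max 1 (∑ j ∈ range x, w j ^ 2)) * (x : ℝ) ^ δ + (∑ i : Fin s, err h (θ i).1) * ∑ j ∈ range x, |w j|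

/-- The digit number `i` (counted from the right, beginning with `0`) of `n` in base `b`. -/
def digit (b i n : ℕ) : ℕ := n / b ^ i % b

/-- The number which arises from the number `N` with at most `K` digits in base `b`, if for every `i ∈ S`
the digit number `i` is replaced by `f i`. -/
def change (b K N : ℕ) (f : ℕ → ℕ) (S : Finset ℕ) : ℕ :=
  ∑ i ∈ range K, (if i ∈ S then f i else digit b i N) * b ^ i

open Classical in
/-- The number of the choices of `r j` of `K j` positions for all `j` for which the tuple of the numbers obtained by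
changing the digits of the `N j` at the chosen positions (according to `f j`) does not have the property `E`. -/
noncomputable def exceptions {d : ℕ} (b : ℕ) (K r N : Fin d → ℕ) (f : Fin d → ℕ → ℕ) (E : (Fin d → ℕ) → Prop) : ℕ :=
  ((Fintype.piFinset (fun j => powersetCard (r j) (range (K j)))).filter
    (fun S => ¬ E (fun j => change b (K j) (N j) (f j) (S j)))).card

lemma exc_eq {d : ℕ} (b : ℕ) (K r N : Fin d → ℕ) (f : Fin d → ℕ → ℕ) (E : (Fin d → ℕ) → Prop) :
    exceptions b K r N f E = Pool.Agent.Y57.FD.exceptions b K r N f E := rfl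

section
variable {n d D K : ℕ} (e : Fin D ≃ Exponent n d)

lemma eval_poly (p : ℕ) [Fact p.Prime] (k : ℕ) (m : Fin D → ℕ) (x : Fin (n + 1) → GaloisField p k) :
    MvPolynomial.eval x (poly (GaloisField p k) e m) =
      MvPolynomial.aeval x (Pool.Agent.N842.HS.fpl p (N := n + 1) e (fun k => (m k : ZMod p))) := by
  unfold poly Pool.Agent.N842.HS.fpl Pool.Agent.N842.HS.lowp
  rw [map_add, map_add, map_sum, map_sum, map_sum, map_sum]
  congr 1
  · refine sum_congr rfl fun i _ => ?_
    rw [map_pow, map_pow, MvPolynomial.eval_X, MvPolynomial.aeval_X]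
  · refine sum_congr rfl fun k _ => ?_
    rw [map_mul, MvPolynomial.eval_C, map_prod, MvPolynomial.aeval_monomial, map_natCast, Finsupp.prod_fintype _ _ (fun _ => pow_zero _)]
    congr 1
    refine prod_congr rfl fun i _ => ?_
    rw [map_pow, MvPolynomial.eval_X]
    rfl

lemma poly_eq (p : ℕ) [Fact p.Prime] (m : Fin D → ℕ) :
    poly (AlgebraicClosure (ZMod p)) e m = Pool.Agent.N842.HS.PF (N := n + 1) e p (fun k => (m k : ZMod p)) := by
  unfold poly Pool.Agent.N842.HS.PF
  simp only [map_natCast]

lemma smooth_iff (p : ℕ) [Fact p.Prime] (m : Fin D → ℕ) :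
    Smooth e p m ↔ ¬ p ∣ d ∧ ¬ Pool.Agent.N842.HS.Sing (N := n + 1) e p (fun k => (m k : ZMod p)) := by
  unfold Smooth Pool.Agent.N842.HS.Sing
  rw [poly_eq]

lemma trace_eq (p : ℕ) [Fact p.Prime] (k : ℕ) (m : Fin D → ℕ) :
    trace e k p m = Pool.Agent.N842.HS.trk (N := n + 1) e p k (fun k => (m k : ZMod p)) := by
  unfold trace Pool.Agent.N842.HS.trk points Pool.Agent.N842.HS.infp
  simp only [eval_poly]
  rfl

lemma test_eq (θ : (Fin K → ℝ) × ℝ) (p : ℕ) (m : Fin D → ℕ) :
    test e θ p m = Pool.Agent.N842.HS.TT (N := n + 1) e θ p m := by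
  classical
  unfold test Pool.Agent.N842.HS.TT
  by_cases hp : p.Prime
  · rw [dif_pos hp, dif_pos hp]
    have : Fact p.Prime := ⟨hp⟩
    unfold Pool.Agent.N842.HS.Tk
    by_cases h : Smooth e p m
    · rw [if_pos h, if_pos ((smooth_iff e p m).1 h)]
      congr 2
      refine sum_congr rfl fun k _ => ?_
      rw [trace_eq]
    · rw [if_neg h, if_neg (fun h' => h ((smooth_iff e p m).2 h'))]
  · rw [dif_neg hp, dif_neg hp]

lemma main_eq (hn : Even n) (θ : (Fin K → ℝ) × ℝ) : mainTerm θ = Pool.Agent.N842.HS.mnk (n + 1) θ.1 θ.2 := by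
  classical
  unfold mainTerm Pool.Agent.N842.HS.mnk
  have h1 : ((-1 : ℝ)) ^ (n + 1 - 1) = 1 := by
    rw [Nat.add_sub_cancel]
    exact hn.neg_one_pow
  rw [h1, one_mul]
  rfl

end

/-- Let an even number `n ≥ 2`, a degree `d`, integers `h, K` with `h ≥ 1` and `2 h K ≤ d`, `s ≥ 1`, a base `b ≥ 2`, `δ > 0`,
integers `A, B ≥ 0` and a finite set `Q` of parameters `(τ, v)` be given.  There are `c > 0` and `y₀` such that for all integers
`r j`, `K' j` (`j < D`, where `D` is the number of the monomials of degree less than `d` in `n + 1` variables), `y` with `2 r j ≤ K' j`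
and `y ≥ y₀` the following holds.

Let `0 ≤ N' j < b ^ K' j` be arbitrary integers, prescribe for every position `t` a digit `f j t` different from the digit of
`N' j` in base `b`, and let for every `x` an arbitrary set `W x` of at most `x ^ B` weights `w : ℕ → [-1, 1]` be given.  If one
chooses `r j` of the `K' j` positions and replaces the digits of `N' j` at these positions, then for all but at most a proportion
`1 / y ^ A` of the choices the hypersurface `X` of dimension `n` with the coefficients `m j` obtained has the following property: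
for all integers `x` with `y ≤ x ≤ exp (c r j)` for all `j` the joint law of the traces of the first `K` powers of the
normalised Frobenius automorphisms on the primitive part of `H ^ n(X)` at `s` consecutive primes is, in the weighted mean over the first
`x` primes, the law of independent normal variables with the variances `k` and the means `1` for even `k` and `0` for odd `k`, in the
sense of the property `Law`: for all characteristic functions with parameters in `Q`, up to `2 (variance / 2) ^ h / h!`. -/
theorem result (n d D h K s b : ℕ) (e : Fin D ≃ Exponent n d) (hn : Even n) (hn2 : 2 ≤ n) (hd : 2 ≤ d) (hh : 1 ≤ h) (hK : 2 * h * K ≤ d) (hs : 1 ≤ s)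
    (hb : 2 ≤ b) (δ : ℝ) (hδ : 0 < δ) (A B : ℕ) (Q : Finset ((Fin K → ℝ) × ℝ)) :
    ∃ c : ℝ, 0 < c ∧ ∃ y₀ : ℕ, ∀ (K' r : Fin D → ℕ) (y : ℕ), (∀ j, 2 * r j ≤ K' j) → y₀ ≤ y →
    ∀ N' : Fin D → ℕ, (∀ j, N' j < b ^ K' j) →
    ∀ f : Fin D → ℕ → ℕ, (∀ j t, f j t < b ∧ f j t ≠ digit b t (N' j)) →
    ∀ W : ℕ → Set (ℕ → ℝ), (∀ x, (W x).Finite ∧ (W x).ncard ≤ x ^ B) → (∀ x, ∀ w ∈ W x, ∀ j, |w j| ≤ 1) →
      (exceptions b K' r N' f
        (fun m => ∀ x : ℕ, y ≤ x → (∀ j, (x : ℝ) ≤ Real.exp (c * r j)) → Law e h s δ Q (W x) x m) : ℝ) ≤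
        1 / (y : ℝ) ^ A * ∏ j, ((K' j).choose (r j) : ℝ) := by
  obtain ⟨c, hc, y₀, h1⟩ := Pool.Agent.N842.HS.law (N := n + 1) e (by omega) hd h K hh hK b s hb hs δ hδ A B Q
  refine ⟨c, hc, y₀, fun K' r y hrK hy N' hN' f hf W hW hW1 => ?_⟩
  rw [exc_eq]
  refine h1 K' r y hrK hy N' hN' f hf W hW hW1 _ fun m hm x hyx hxr w hw θ hθ => ?_
  have h2 := hm x hyx hxr w hw θ hθ
  simp only [test_eq, main_eq hn]
  exact h2

end Pool.Agent.Results.MP_32ceeb_nt.EvenHypersurfaces
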