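import Pool.Agent.N647.TS.MomT

/-!
# The joint moments of the traces of the powers of the Frobenius automorphisms for almost all hypersurfaces of even dimension whose
coefficients are the integer parts of the values at the same integer, or prime, of generalised polynomials

The hypersurface `X` of degree `d` in the projective space of dimension `n + 1` is the projective closure of
`∑ x_i ^ d + ∑ m_α x ^ α = 0`, where `x = (x_0, ..., x_n)` and `α` runs through the exponents of all monomials of degree less than `d`.
Here `m_α = ⌊P_α(t)⌋` with generalised polynomials `P_α`, so that there is one parameter `t` only: for `t ≤ N` only `N` of the about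
`N ^ (the sum of the leading exponents)` hypersurfaces of the corresponding box occur.

Let `t_k` be the trace of the `k`-th power of the normalised Frobenius automorphism on the primitive part of `H ^ n(X)`.  A monomial
`Y = ∏ t_k ^ (ρ k)` has the weight `∑ k (ρ k)`.  We determine the means of the monomials `Y` of weight at most `d / q`, where
the values with `|Y| > p ^ (1 / (2 (q - 1)))` are replaced by `0`; by Deligne's theorem `|t_k|` is at most the dimension of the primitive
part, so that there are such values only for the prime numbers `p` less than a number which depends only on `n`, `d` and `q`.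

Method: by exponential sums the vectors of the integer parts are uniformly distributed modulo all moduli up to a power of
`N`, over the integers and over the primes (`Pool.Agent.N666.TM.fl_well`); high moments of sums of local functions over such families
(`Pool.Agent.N647.TS`); the local means are those of `EvenHypersurfaceMoments` (`Pool.Agent.N842.HS`).
-/

set_option autoImplicit false

namespace Pool.Agent.Results.MP_32ceeb_nt.ThinSequences

open Finset ProbabilityTheory

/-- The exponents of the monomials of degree less than `d` in the variables `x_0, ..., x_n`. -/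
abbrev Exponent (n d : ℕ) : Type := {α : Fin (n + 1) → Fin d // ∑ i, (α i : ℕ) < d}

/-- The polynomial `∑ x_i ^ d + ∑ u_k x ^ (e k)` over the ring `R`, where `e` is an enumeration of the exponents. -/
noncomputable def poly {R : Type} [CommRing R] {n d D : ℕ} (e : Fin D ≃ Exponent n d) (u : Fin D → R) : MvPolynomial (Fin (n + 1)) R :=
  ∑ i, MvPolynomial.X i ^ d + ∑ k, MvPolynomial.C (u k) * ∏ i, MvPolynomial.X i ^ ((e k).1 i : ℕ)

/-- The number of the points over the field with `q = p ^ k` elements of the hypersurface over the field with `p` elements with the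
coefficients `u`: the number of the zeros of the polynomial (these are the points outside the hyperplane at infinity), and the number
of the nonzero solutions of `∑ x_i ^ d = 0` divided by `q - 1` (these are the points at infinity). -/
noncomputable def points {n d D : ℕ} (e : Fin D ≃ Exponent n d) (k p : ℕ) [Fact p.Prime] (u : Fin D → ZMod p) : ℝ :=
  (Nat.card {x : Fin (n + 1) → GaloisField p k // MvPolynomial.eval x (poly e (fun i => algebraMap (ZMod p) (GaloisField p k) (u i))) = 0} : ℝ) +
    ((Nat.card {x : Fin (n + 1) → GaloisField p k // ∑ i, x i ^ d = 0} : ℝ) - 1) / ((p : ℝ) ^ k - 1)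

/-- The trace of the `k`-th power of the normalised Frobenius automorphism (that is, the Frobenius automorphism divided by
`p ^ (n / 2)`) on the primitive part of the cohomology `H ^ n` of this hypersurface: the number
`(-1) ^ n (#X(F_q) - (1 + q + ... + q ^ n)) / q ^ (n / 2)`, where `q = p ^ k`. -/
noncomputable def trace {n d D : ℕ} (e : Fin D ≃ Exponent n d) (k p : ℕ) [Fact p.Prime] (u : Fin D → ZMod p) : ℝ :=
  (-1) ^ n * ((points e k p u - ∑ i ∈ range (n + 1), ((p : ℝ) ^ k) ^ i) / (Real.sqrt p ^ k) ^ n)

/-- `p` does not divide `d`, and the polynomial and its partial derivatives do not have a common zero over the algebraic closure of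
the field with `p` elements, so that the hypersurface is smooth. -/
def Smooth {n d D : ℕ} (e : Fin D ≃ Exponent n d) (p : ℕ) [Fact p.Prime] (u : Fin D → ZMod p) : Prop :=
  ¬ p ∣ d ∧ ¬ ∃ x : Fin (n + 1) → AlgebraicClosure (ZMod p),
    MvPolynomial.eval x (poly e (fun i => algebraMap (ZMod p) (AlgebraicClosure (ZMod p)) (u i))) = 0 ∧
    ∀ i, MvPolynomial.eval x (MvPolynomial.pderiv i (poly e (fun i => algebraMap (ZMod p) (AlgebraicClosure (ZMod p)) (u i)))) = 0

/-- The monomial `Y = ∏ t_k ^ (ρ k)` in the traces `t_k` with the numbers `k` (`1 ≤ k ≤ d`; the index of `ρ` is `k - 1`). -/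
noncomputable def monomial {n d D : ℕ} (e : Fin D ≃ Exponent n d) (ρ : Fin d → ℕ) (p : ℕ) [Fact p.Prime] (u : Fin D → ZMod p) : ℝ :=
  ∏ k : Fin d, trace e (k + 1) p u ^ ρ k

open Classical in
/-- The monomial `Y` if the hypersurface is smooth and `|Y| ≤ p ^ (1 / (2 (q - 1)))`, and `0` otherwise. -/
noncomputable def truncated {n d D : ℕ} (e : Fin D ≃ Exponent n d) (q : ℕ) (ρ : Fin d → ℕ) (p : ℕ) [Fact p.Prime] (u : Fin D → ZMod p) : ℝ :=
  if Smooth e p u ∧ |monomial e ρ p u| ≤ (p : ℝ) ^ (1 / (2 * ((q : ℝ) - 1))) then monomial e ρ p u else 0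

/-- The truncated monomial for the reduction of `X` modulo the prime number `p`. -/
noncomputable def value {n d D : ℕ} (e : Fin D ≃ Exponent n d) (q : ℕ) (ρ : Fin d → ℕ) (p : ℕ) (m : Fin D → ℕ) : ℝ :=
  if h : p.Prime then
    haveI : Fact p.Prime := ⟨h⟩
    truncated e q ρ p (fun i => (m i : ZMod p))
  else 0

open Classical in
/-- The `r`-th moment of a normal variable with the mean `1` if `k` is even and `0` if `k` is odd, and the variance `k`. -/
noncomputable def moment (k r : ℕ) : ℝ := ∫ x, x ^ r ∂(gaussianReal (if Even k then 1 else 0) (k : NNReal))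

/-- For all weights `w` in `W` and all `ρ_0, ..., ρ_(s-1)` of weight at most `d / q`: the weighted sum over the first `x` primes
`p_0 = 2, p_1, ...` of the products of the truncated monomials with the exponents `ρ_i` at `p_(j + i)` differs from the same sum with
the moments of independent normal variables at most by `(max 1 (∑ w j ^ 2)) ^ (1 / 2) x ^ (s / (2 (q - 1)) + δ)`. -/
def Moments {n d D : ℕ} (e : Fin D ≃ Exponent n d) (q s : ℕ) (δ : ℝ) (W : Set (ℕ → ℝ)) (x : ℕ) (m : Fin D → ℕ) : Prop :=
  ∀ w ∈ W, ∀ ρ : Fin s → Fin d → ℕ, (∀ i, q * ∑ k : Fin d, (k + 1 : ℕ) * ρ i k ≤ d) →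
    |∑ j ∈ range x, w j * ∏ i : Fin s, value e q (ρ i) (Nat.nth Nat.Prime (j + i)) m -
        ∑ j ∈ range x, w j * ∏ i : Fin s, ∏ k : Fin d, moment (k + 1) (ρ i k)| ≤
      Real.sqrt (max 1 (∑ j ∈ range x, w j ^ 2)) * (x : ℝ) ^ ((s : ℝ) / (2 * ((q : ℝ) - 1)) + δ)

/-- `c` is the largest exponent of the generalised polynomial `∑ b x t ^ x`, `x ∈ F`; it is positive and not an integer and has a
positive coefficient. -/
def Admissible (F : Finset ℝ) (b : ℝ → ℝ) (c : ℝ) : Prop :=
  c ∈ F ∧ (∀ x ∈ F, x ≤ c) ∧ 0 < c ∧ (∀ m : ℕ, c ≠ m) ∧ 0 < b c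

/-- The integer part `⌊P_j(t)⌋` of the value of the generalised polynomial number `j` (and `0` if the value is negative, which is
the case for finitely many `t` only). -/
noncomputable def coefficient {D : ℕ} (F : Fin D → Finset ℝ) (b : Fin D → ℝ → ℝ) (t : ℕ) (j : Fin D) : ℕ :=
  ⌊∑ x ∈ F j, b j x * (t : ℝ) ^ x⌋₊

section
variable {n d D : ℕ} (e : Fin D ≃ Exponent n d)

lemma eval_poly (p : ℕ) [Fact p.Prime] (k : ℕ) (u : Fin D → ZMod p) (x : Fin (n + 1) → GaloisField p k) :
    MvPolynomial.eval x (poly e (fun i => algebraMap (ZMod p) (GaloisField p k) (u i))) =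
      MvPolynomial.aeval x (Pool.Agent.N842.HS.fpl p (N := n + 1) e u) := by
  unfold poly Pool.Agent.N842.HS.fpl Pool.Agent.N842.HS.lowp
  rw [map_add, map_add, map_sum, map_sum, map_sum, map_sum]
  congr 1
  · refine sum_congr rfl fun i _ => ?_
    rw [map_pow, map_pow, MvPolynomial.eval_X, MvPolynomial.aeval_X]
  · refine sum_congr rfl fun k _ => ?_
    rw [map_mul, MvPolynomial.eval_C, map_prod, MvPolynomial.aeval_monomial, Finsupp.prod_fintype _ _ (fun _ => pow_zero _)]
    congr 1
    refine prod_congr rfl fun i _ => ?_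
    rw [map_pow, MvPolynomial.eval_X]
    rfl

lemma smooth_iff (p : ℕ) [Fact p.Prime] (u : Fin D → ZMod p) :
    Smooth e p u ↔ ¬ p ∣ d ∧ ¬ Pool.Agent.N842.HS.Sing (N := n + 1) e p u := by
  unfold Smooth Pool.Agent.N842.HS.Sing poly Pool.Agent.N842.HS.PF
  exact Iff.rfl

lemma trace_eq (p : ℕ) [Fact p.Prime] (k : ℕ) (u : Fin D → ZMod p) :
    trace e k p u = Pool.Agent.N842.HS.trk (N := n + 1) e p k u := by
  unfold trace Pool.Agent.N842.HS.trk points Pool.Agent.N842.HS.infp
  simp only [eval_poly]
  rfl

lemma truncated_eq (q : ℕ) (ρ : Fin d → ℕ) (p : ℕ) [Fact p.Prime] (u : Fin D → ZMod p) :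
    truncated e q ρ p u = Pool.Agent.N842.HS.Ft (N := n + 1) e ρ (1 / (2 * (q - 1))) p u := by
  classical
  have h1 : monomial e ρ p u = Pool.Agent.N842.HS.Yk (N := n + 1) e ρ p u := by
    unfold monomial Pool.Agent.N842.HS.Yk
    refine prod_congr rfl fun k _ => ?_
    rw [trace_eq]
  unfold truncated Pool.Agent.N842.HS.Ft
  rw [h1]
  exact if_congr (by rw [smooth_iff, and_assoc]) rfl rfl

lemma value_eq (q : ℕ) (ρ : Fin d → ℕ) (p : ℕ) (m : Fin D → ℕ) :
    value e q ρ p m = Pool.Agent.N842.HS.FZ (N := n + 1) e ρ (1 / (2 * (q - 1))) p m := by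
  unfold value Pool.Agent.N842.HS.FZ
  by_cases hp : p.Prime
  · rw [dif_pos hp, dif_pos hp]
    have : Fact p.Prime := ⟨hp⟩
    rw [truncated_eq]
  · rw [dif_neg hp, dif_neg hp]

lemma moment_eq (hn : Even n) (k r : ℕ) : moment k r = Pool.Agent.N842.HS.muk (n + 1) k r := by
  classical
  rw [Pool.Agent.N842.HS.muk_gauss, Nat.add_sub_cancel, hn.neg_one_pow]
  unfold moment Pool.Agent.N842.HS.etak
  split_ifs <;> norm_num

end

open Classical in
/-- Let an even number `n ≥ 2`, a degree `d ≥ 2`, an even number `q ≥ 2`, `s ≥ 1`, `δ > 0` and integers `A, B ≥ 0` be given, and for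
every `j < D`, where `D` is the number of the monomials of degree less than `d` in `n + 1` variables, a generalised polynomial
`P_j(t) = ∑ a j x t ^ x`, with distinct leading exponents which are positive and not integers and have positive coefficients
(for example `t ^ (j + √2)`).  There are `κ > 0` and `y₀` such that for all `y ≥ y₀` and all `N` the following holds.

Let for every `x` an arbitrary set `W x` of at most `x ^ B` weights `w : ℕ → [-1, 1]` be given.  Then for all the integers `t` in
`(N, 2 N]` with at most `N / y ^ A` exceptions, and for all the primes `t` in `(N, 2 N]` with the exception of at most a proportion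
`1 / y ^ A` of them, the hypersurface `X` of dimension `n` with the coefficients `⌊P_j(t)⌋` has the following property:
for all integers `x` with `y ≤ x ≤ N ^ κ` all the joint moments of weight at most `d / q` of the traces of the
powers of the normalised Frobenius automorphisms on the primitive part of `H ^ n(X)` at `s` consecutive primes have, in the weighted
mean over the first `x` primes, the values which correspond to independent normal variables with the variances `k` and the means `1`
for even `k` and `0` for odd `k`, up to the error in the property `Moments`. -/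
theorem result (n d D q s : ℕ) (e : Fin D ≃ Exponent n d) (hn : Even n) (hn2 : 2 ≤ n) (hd : 2 ≤ d) (hq : 2 ≤ q)
    (hq2 : Even q) (hs : 1 ≤ s) (F : Fin D → Finset ℝ) (a : Fin D → ℝ → ℝ) (c : Fin D → ℝ)
    (ha : ∀ j, Admissible (F j) (a j) (c j)) (hc : Function.Injective c) (δ : ℝ) (hδ : 0 < δ) (A B : ℕ) :
    ∃ κ : ℝ, 0 < κ ∧ ∃ y₀ : ℕ, ∀ y N : ℕ, y₀ ≤ y →
    ∀ W : ℕ → Set (ℕ → ℝ), (∀ x, (W x).Finite ∧ (W x).ncard ≤ x ^ B) → (∀ x, ∀ w ∈ W x, ∀ j, |w j| ≤ 1) →
      (((Ioc N (2 * N)).filter fun t => ¬ ∀ x : ℕ, y ≤ x → (x : ℝ) ≤ (N : ℝ) ^ κ →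
        Moments e q s δ (W x) x (coefficient F a t)).card : ℝ) ≤ 1 / (y : ℝ) ^ A * N ∧
      ((((Ioc N (2 * N)).filter Nat.Prime).filter fun t => ¬ ∀ x : ℕ, y ≤ x → (x : ℝ) ≤ (N : ℝ) ^ κ →
        Moments e q s δ (W x) x (coefficient F a t)).card : ℝ) ≤ 1 / (y : ℝ) ^ A * ((Ioc N (2 * N)).filter Nat.Prime).card := by
  obtain ⟨κ, hκ, y₀, h1⟩ := Pool.Agent.N647.TS.momZT (N := n + 1) e (by omega) hd s q (P := F) (a := a) (c := c) ha hc hs hq hq2
    δ hδ A B
  refine ⟨κ, hκ, y₀, fun y N hy W hW hW1 => ?_⟩
  refine h1 y N hy W hW hW1 (fun m => ∀ x : ℕ, y ≤ x → (x : ℝ) ≤ (N : ℝ) ^ κ → Moments e q s δ (W x) x m)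
    fun m hm x hyx hxr w hw ρ hρ => ?_
  have h2 := hm x hyx hxr w hw ρ hρ
  simp only [value_eq, moment_eq hn]
  exact h2

end Pool.Agent.Results.MP_32ceeb_nt.ThinSequences
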